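import Pool.Agent.Helper60.AO.HighU
import Pool.Agent.Helper54.AO.H9

/-!
# AO: the high part without hypotheses
-/

open MeasureTheory Real Set Filter Topology

set_option autoImplicit false

namespace Pool.Agent.Helper60.AO

open Pool.Agent.Helper22.AE Pool.Agent.Helper60.AD
open Pool.Agent.Helper92.GC (dt sqa)

theorem exp3 {ε : ℝ} (hε : 0 < ε) (hε1 : ε ≤ 1) : Exp3 ε := Pool.Agent.Helper54.AO.exponents3 hε hε1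

/-- the key proposition -/
theorem key3 {ε : ℝ} (hε : 0 < ε) (hε1 : ε ≤ 1) {L : ℕ} (hL : 2 / ε + 12 ≤ L) :
    ∃ (g e2 : ℝ), 0 < g ∧ g ≤ 1 / 100 ∧ 0 < e2 ∧ e2 ≤ 1 / 100 ∧ ∀ V Bd : ℝ, ∃ (C R₁ : ℝ), 0 < C ∧ 1 ≤ R₁ ∧
      ∀ H₀ : ℝ → ℝ, ContDiff ℝ 2 H₀ → Function.Periodic H₀ (2 * π) → (∀ θ, |rho H₀ θ| ≤ V) → ∀ R₀ : ℝ, R₁ ≤ R₀ → ∀ n : ℕ,
      R₀ ^ ε ≤ (2 : ℝ) ^ n → (2 : ℝ) ^ n ≤ R₀ ^ (1 / 2 + e2) → ∀ β : ℝ, 0 < β → β ≤ 2 * (R₀ * 2 ^ n) ^ (-(1 / 2) : ℝ) →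
      ∀ b : ℝ → ℤ × ℤ → ℂ, (∀ k, Continuous (fun α => b α k)) → (∀ α k, ‖b α k‖ ≤ 1) →
        ∃ E : Set ((Fin L → ℝ) × (Fin L → ℝ)), (gm L).real E ≤ C * ((2 : ℝ) ^ n) ^ (-g) ∧
          ∀ w ∉ E, ‖w‖ ≤ Bd → ∀ R ∈ Icc (R₀ / 2) (4 * R₀), ∀ c : ℝ × ℝ,
            ∫ α in Icc (-π) π ∩ {α | 1 / 2 ≤ |cos α|}, k0 β α * ‖Sc (Hw H₀ w) (blk n) (b α) R α c‖ ≤
              ((2 : ℝ) ^ n) ^ (3 / 2 - g) :=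
  key3_of (exp3 hε hε1) hε hL

/-- all blocks between `R₀^ε` and `R₀^(1/2+e2)` of one scale, uniform in the base -/
theorem high_u {ε : ℝ} (hε : 0 < ε) (hε1 : ε ≤ 1) {L : ℕ} (hL : 2 / ε + 12 ≤ L) :
    ∃ (g e2 : ℝ), 0 < g ∧ g ≤ 1 / 100 ∧ 0 < e2 ∧ e2 ≤ 1 / 100 ∧ ∀ B Bd : ℝ, ∃ (C R₁ : ℝ), 0 < C ∧ 1 ≤ R₁ ∧
      ∀ H₀ : ℝ → ℝ, ContDiff ℝ 2 H₀ → Function.Periodic H₀ (2 * π) → (∀ θ, |rho H₀ θ| ≤ B) → ∀ R₀ : ℝ, R₁ ≤ R₀ →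
      ∃ E : Set ((Fin L → ℝ) × (Fin L → ℝ)), (gm L).real E ≤ C * R₀ ^ (-g) ∧ ∀ w ∉ E, ‖w‖ ≤ Bd →
        ∀ n : ℕ, R₀ ^ ε ≤ (2 : ℝ) ^ n → (2 : ℝ) ^ (n + 1) ≤ R₀ ^ (1 / 2 + e2) → ∀ R ∈ Icc (R₀ / 2) (4 * R₀), ∀ p : ℝ × ℝ,
        IsSupp (fun θ => R * (Hw H₀ w θ - (p.1 * cos θ + p.2 * sin θ))) → ∀ c : ℝ × ℝ,
          ‖∑ k ∈ sqa (2 ^ n), ft (fun θ => R * (Hw H₀ w θ - (p.1 * cos θ + p.2 * sin θ))) k * ee (dt k c)‖ ≤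
            C * R₀ ^ (1 / 2 : ℝ) * ((2 : ℝ) ^ n) ^ (-g) :=
  high_u_of (exp3 hε hε1) hε hε1 hL

end Pool.Agent.Helper60.AO
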