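import Pool.Agent.Helper60.AD.Key

/-!
# AO (MP_fb29e9_nt, high frequencies with a power saving): definitions

An arc of generation `s` is `arcSet (blk n) (8 * M ^ s) j`, its direction is the angle `th M s j`. `tt` is the scaled sine of the
angle between `k` and this direction (in `[0, 1]` on the arc), `Sm` the real moments of a tuple in this coordinate.
-/

open MeasureTheory Real Set Filter Topology

set_option autoImplicit false

namespace Pool.Agent.Helper60.AO

open Pool.Agent.Helper22.AE Pool.Agent.Helper60.AD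

/-- the unit vector in the direction of the arc number `j` of generation `s` -/
noncomputable def z0 (M s j : ℕ) : ℂ := Complex.exp (((th M s j : ℝ) : ℂ) * Complex.I)

/-- the scaled sine of the angle between `k` and the direction of the arc -/
noncomputable def tt (M s j : ℕ) (k : ℤ × ℤ) : ℝ := (M : ℝ) ^ s * (zk k * (starRingEnd ℂ) (z0 M s j)).im

/-- the real moments of a tuple -/
noncomputable def Sm {J : ℕ} (M s j : ℕ) (k : Fin J → ℤ × ℤ) (m : ℕ) : ℝ := ∑ i, nk (k i) * tt M s j (k i) ^ m

/-- the arc is not close to the direction of a nonzero integer vector of length at most `V` -/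
def Gen (M s j : ℕ) (V : ℝ) : Prop :=
  ∀ v : ℤ × ℤ, ‖cz v‖ ≤ V → |(cz v * (starRingEnd ℂ) (z0 M s j)).im| ≤ V / (M : ℝ) ^ s → v = 0

/-- the constant of the separation -/
noncomputable def CJ (J : ℕ) : ℝ := 40 * J * 4096 ^ J

/-- the bound for the number of collisions: cells of side `1 / (2 CJ M^(4J))` for the moments `m < 2J - 1` and `lam` times as long for
the last one -/
noncomputable def Nc (J M s : ℕ) (η lam : ℝ) : ℝ :=
  4 ^ J * (∏ m ∈ Finset.range (2 * J - 1), ((M : ℝ) ^ (s * m) * η * (2 * CJ J * (M : ℝ) ^ (4 * J)) + 1)) *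
    ((M : ℝ) ^ (s * (2 * J - 1)) * η * (2 * CJ J * (M : ℝ) ^ (4 * J)) / lam + 1)

/-- the tuple of children arcs -/
noncomputable def Ch {J : ℕ} (n M s j : ℕ) (a : Fin J → Fin M) (t : Fin J) : Finset (ℤ × ℤ) :=
  arcSet (blk n) (8 * M ^ (s + 1)) (M * j + a t)

/-- the sum over the arcs of generation `s` and the tuples of children, with the parameter `κ` of the Sobolev inequality -/
noncomputable def Gk {L : ℕ} (H₀ : ℝ → ℝ) (n M s J : ℕ) (Cs C0 κ R₀ : ℝ) (b : ℝ → ℤ × ℤ → ℂ) (α : ℝ)
    (w : (Fin L → ℝ) × (Fin L → ℝ)) : ℝ :=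
  ∑ j ∈ Finset.range (8 * M ^ s), ∑ a ∈ gapT J M, FQ (2 ^ n) M s J * (Cs * κ *
    Ys H₀ (Ch n M s j a) (b α) (th M s j) (C0 * κ) R₀ α w)

end Pool.Agent.Helper60.AO
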