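import Pool.Agent.Helper60.AO.Key3
import Pool.Agent.Helper85.AD.Types2u

/-!
# AO: the blocks of high frequency, one scale, uniform in the base
-/

open MeasureTheory Real Set Filter Topology

set_option autoImplicit false

namespace Pool.Agent.Helper60.AO

open Pool.Agent.Helper22.AE Pool.Agent.Helper60.AD
open Pool.Agent.Helper92.GC (dt sqa)

/-- all blocks between `R₀^ε` and `R₀^(1/2+e2)` of one scale -/
theorem high_u_of {ε : ℝ} (hE3 : Exp3 ε) (hε : 0 < ε) (hε1 : ε ≤ 1) {L : ℕ} (hL : 2 / ε + 12 ≤ L) :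
    ∃ (g e2 : ℝ), 0 < g ∧ g ≤ 1 / 100 ∧ 0 < e2 ∧ e2 ≤ 1 / 100 ∧ ∀ B Bd : ℝ, ∃ (C R₁ : ℝ), 0 < C ∧ 1 ≤ R₁ ∧
      ∀ H₀ : ℝ → ℝ, ContDiff ℝ 2 H₀ → Function.Periodic H₀ (2 * π) → (∀ θ, |rho H₀ θ| ≤ B) → ∀ R₀ : ℝ, R₁ ≤ R₀ →
      ∃ E : Set ((Fin L → ℝ) × (Fin L → ℝ)), (gm L).real E ≤ C * R₀ ^ (-g) ∧ ∀ w ∉ E, ‖w‖ ≤ Bd →
        ∀ n : ℕ, R₀ ^ ε ≤ (2 : ℝ) ^ n → (2 : ℝ) ^ (n + 1) ≤ R₀ ^ (1 / 2 + e2) → ∀ R ∈ Icc (R₀ / 2) (4 * R₀), ∀ p : ℝ × ℝ,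
        IsSupp (fun θ => R * (Hw H₀ w θ - (p.1 * cos θ + p.2 * sin θ))) → ∀ c : ℝ × ℝ,
          ‖∑ k ∈ sqa (2 ^ n), ft (fun θ => R * (Hw H₀ w θ - (p.1 * cos θ + p.2 * sin θ))) k * ee (dt k c)‖ ≤
            C * R₀ ^ (1 / 2 : ℝ) * ((2 : ℝ) ^ n) ^ (-g) := by
  classical
  obtain ⟨g, e2, hg, hg1, he2, he2', hkey0⟩ := key3_of hE3 hε hL
  refine ⟨ε * g / 2, e2, by positivity, by nlinarith, he2, he2', fun B Bd => ?_⟩
  obtain ⟨C, R₁, hC, hR₁, hkey⟩ := hkey0 B Bd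
  obtain ⟨nT, Ct, hCt, hty⟩ := Pool.Agent.Helper85.ADu.types2u L B Bd
  obtain ⟨ρ, hρ⟩ : ∃ ρ : ℝ, ρ = (2 : ℝ) ^ (-(g / 2)) := ⟨_, rfl⟩
  have hρ0 : 0 < ρ := by rw [hρ]; exact Real.rpow_pos_of_pos (by norm_num) _
  have hρ1 : ρ < 1 := by rw [hρ]; exact Real.rpow_lt_one_of_one_lt_of_neg (by norm_num) (by linarith)
  have hK0 : 0 < (1 - ρ)⁻¹ := inv_pos.mpr (by linarith)
  obtain ⟨D, hD⟩ : ∃ D : ℝ, D = nT * (2 * C * (1 - ρ)⁻¹) + (8 * nT + 1) * Ct + 1 := ⟨_, rfl⟩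
  have hD0 : 0 < D := by rw [hD]; positivity
  refine ⟨D, R₁, hD0, hR₁, ?_⟩
  intro H₀ h0 hp hB R₀ hR₀
  have hR₀1 : 1 ≤ R₀ := hR₁.trans hR₀
  have hR₀0 : 0 < R₀ := by linarith
  choose b hbc hb1 hbt using fun n => hty H₀ h0 hB n
  have hpow : ∀ n : ℕ, ((2 : ℝ) ^ n) ^ (-(g / 2)) = ρ ^ n := by
    intro n
    rw [hρ, ← Real.rpow_natCast, ← Real.rpow_natCast, ← Real.rpow_mul (by norm_num), ← Real.rpow_mul (by norm_num), mul_comm]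
  have hE : ∀ (n : ℕ) (i : Fin nT) (r : ℕ), ∃ E : Set ((Fin L → ℝ) × (Fin L → ℝ)),
      (gm L).real E ≤ C * (ρ ^ n * R₀ ^ (-(ε * g / 2))) ∧
      (R₀ ^ ε ≤ (2 : ℝ) ^ n → (2 : ℝ) ^ (n + 1) ≤ R₀ ^ (1 / 2 + e2) → r < 2 → ∀ w ∉ E, ‖w‖ ≤ Bd →
        ∀ R ∈ Icc (R₀ / 2) (4 * R₀), ∀ c : ℝ × ℝ,
          ∫ α in Icc (-π) π ∩ {α | 1 / 2 ≤ |cos α|}, k0 ((R₀ * 2 ^ n) ^ (-(1 / 2) : ℝ)) α *
            ‖Sc (Hw H₀ w) (blk (n + r)) (b n i α) R α c‖ ≤ ((2 : ℝ) ^ (n + r)) ^ (3 / 2 - g)) := by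
    intro n i r
    by_cases h : R₀ ^ ε ≤ (2 : ℝ) ^ n ∧ (2 : ℝ) ^ (n + 1) ≤ R₀ ^ (1 / 2 + e2) ∧ r < 2
    · obtain ⟨h1, h2, h3⟩ := h
      have hn0 : (0 : ℝ) < 2 ^ n := by positivity
      have hle : (2 : ℝ) ^ n ≤ 2 ^ (n + r) := pow_le_pow_right₀ (by norm_num) (by omega)
      have hle2 : (2 : ℝ) ^ (n + r) ≤ 2 ^ (n + 1) := pow_le_pow_right₀ (by norm_num) (by omega)
      have hβ : 0 < (R₀ * 2 ^ n) ^ (-(1 / 2) : ℝ) := Real.rpow_pos_of_pos (by positivity) _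
      have hβ2 : (R₀ * 2 ^ n) ^ (-(1 / 2) : ℝ) ≤ 2 * (R₀ * 2 ^ (n + r)) ^ (-(1 / 2) : ℝ) := by
        have h4 : (4 * (R₀ * 2 ^ n)) ^ (-(1 / 2) : ℝ) ≤ (R₀ * 2 ^ (n + r)) ^ (-(1 / 2) : ℝ) := by
          refine Real.rpow_le_rpow_of_nonpos (by positivity) ?_ (by norm_num)
          rw [pow_succ] at hle2
          nlinarith
        have h5 : (4 * (R₀ * 2 ^ n)) ^ (-(1 / 2) : ℝ) = (1 / 2) * (R₀ * 2 ^ n) ^ (-(1 / 2) : ℝ) := by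
          rw [Real.mul_rpow (by norm_num) (by positivity)]
          congr 1
          rw [show (4 : ℝ) = 2 ^ (2 : ℝ) by norm_num, ← Real.rpow_mul (by norm_num)]
          norm_num
        rw [h5] at h4
        linarith
      obtain ⟨E, hE1, hE2⟩ := hkey H₀ h0 hp hB R₀ hR₀ (n + r) (h1.trans hle) (hle2.trans h2) _ hβ hβ2 (b n i) (hbc n i) (hb1 n i)
      refine ⟨E, hE1.trans ?_, fun _ _ _ w hw hwB R hR c => hE2 w hw hwB R hR c⟩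
      refine mul_le_mul_of_nonneg_left ?_ hC.le
      calc ((2 : ℝ) ^ (n + r)) ^ (-g) ≤ ((2 : ℝ) ^ n) ^ (-g) := Real.rpow_le_rpow_of_nonpos hn0 hle (by linarith)
        _ = ((2 : ℝ) ^ n) ^ (-(g / 2)) * ((2 : ℝ) ^ n) ^ (-(g / 2)) := by
            rw [← Real.rpow_add hn0]
            congr 1
            ring
        _ ≤ ρ ^ n * (R₀ ^ ε) ^ (-(g / 2)) := by
            rw [hpow n]
            refine mul_le_mul_of_nonneg_left ?_ (by positivity)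
            rw [← hpow n]
            exact Real.rpow_le_rpow_of_nonpos (Real.rpow_pos_of_pos hR₀0 _) h1 (by linarith)
        _ = ρ ^ n * R₀ ^ (-(ε * g / 2)) := by
            rw [← Real.rpow_mul hR₀0.le]
            congr 2
            ring
    · refine ⟨∅, ?_, fun h1 h2 h3 => absurd ⟨h1, h2, h3⟩ h⟩
      rw [measureReal_empty]
      have : 0 < R₀ ^ (-(ε * g / 2)) := Real.rpow_pos_of_pos hR₀0 _
      positivity
  choose E hE1 hE2 using hE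
  obtain ⟨N, hN⟩ : ∃ N : ℕ, R₀ < 2 ^ N := pow_unbounded_of_one_lt R₀ (by norm_num)
  refine ⟨⋃ q ∈ (Finset.range N) ×ˢ ((Finset.univ : Finset (Fin nT)) ×ˢ (Finset.range 2)), E q.1 q.2.1 q.2.2, ?_, ?_⟩
  · refine (measureReal_biUnion_finset_le _ _).trans ?_
    refine (Finset.sum_le_sum (fun q _ => hE1 q.1 q.2.1 q.2.2)).trans ?_
    rw [Finset.sum_product]
    simp only [Finset.sum_const, Finset.card_product, Finset.card_univ, Fintype.card_fin, Finset.card_range, nsmul_eq_mul]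
    rw [← Finset.mul_sum, ← Finset.mul_sum, ← Finset.sum_mul]
    have hgeo : ∑ n ∈ Finset.range N, ρ ^ n ≤ (1 - ρ)⁻¹ := by
      rw [← tsum_geometric_of_lt_one hρ0.le hρ1]
      exact Summable.sum_le_tsum _ (fun n _ => by positivity) (summable_geometric_of_lt_one hρ0.le hρ1)
    have hRp : 0 < R₀ ^ (-(ε * g / 2)) := Real.rpow_pos_of_pos hR₀0 _
    calc ((nT * 2 : ℕ) : ℝ) * (C * ((∑ n ∈ Finset.range N, ρ ^ n) * R₀ ^ (-(ε * g / 2)))) ≤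
          ((nT * 2 : ℕ) : ℝ) * (C * ((1 - ρ)⁻¹ * R₀ ^ (-(ε * g / 2)))) := by gcongr
      _ = (nT * (2 * C * (1 - ρ)⁻¹)) * R₀ ^ (-(ε * g / 2)) := by push_cast; ring
      _ ≤ D * R₀ ^ (-(ε * g / 2)) := by
          refine mul_le_mul_of_nonneg_right ?_ hRp.le
          rw [hD]
          have : 0 ≤ (8 * (nT : ℝ) + 1) * Ct := by positivity
          linarith
  · intro w hw hwB n hn1 hn2 R hR p hG c
    have hnot : ∀ i : Fin nT, ∀ r < 2, w ∉ E n i r := by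
      intro i r hr hmem
      apply hw
      rw [Set.mem_iUnion₂]
      refine ⟨(n, i, r), ?_, hmem⟩
      rw [Finset.mem_product, Finset.mem_product]
      refine ⟨Finset.mem_range.mpr ?_, Finset.mem_univ _, Finset.mem_range.mpr hr⟩
      have h1 : (2 : ℝ) ^ n < 2 ^ N := by
        calc (2 : ℝ) ^ n ≤ 2 ^ (n + 1) := pow_le_pow_right₀ (by norm_num) (by omega)
          _ ≤ R₀ ^ (1 / 2 + e2) := hn2
          _ ≤ R₀ ^ (1 : ℝ) := Real.rpow_le_rpow_of_exponent_le hR₀1 (by linarith)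
          _ = R₀ := Real.rpow_one _
          _ < 2 ^ N := hN
      exact (pow_lt_pow_iff_right₀ (by norm_num : (1 : ℝ) < 2)).mp h1
    obtain ⟨c', hc'⟩ := hbt n w hwB p R₀ R hR₀1 hR hG c
    refine hc'.trans ?_
    have hn0 : (0 : ℝ) < 2 ^ n := by positivity
    have hn1' : (1 : ℝ) ≤ 2 ^ n := one_le_pow₀ (by norm_num)
    have hsum : (∑ i, ∑ r ∈ Finset.range 2,
              ∫ α in Icc (-π) π ∩ {α | 1 / 2 ≤ |cos α|}, k0 ((R₀ * 2 ^ n) ^ (-(1 / 2) : ℝ)) α *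
                ‖Sc (Hw H₀ w) (blk (n + r)) (b n i α) R α c'‖) ≤ nT * (2 * (4 * ((2 : ℝ) ^ n) ^ (3 / 2 - g))) := by
      calc _ ≤ ∑ _i : Fin nT, ∑ _r ∈ Finset.range 2, 4 * ((2 : ℝ) ^ n) ^ (3 / 2 - g) := by
            refine Finset.sum_le_sum fun i _ => Finset.sum_le_sum fun r hr => ?_
            have hr' : r < 2 := Finset.mem_range.mp hr
            refine (hE2 n i r hn1 hn2 hr' w (hnot i r hr') hwB R hR c').trans ?_
            have h2 : (2 : ℝ) ^ (n + r) ≤ 2 * 2 ^ n := by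
              rw [← pow_succ']
              exact pow_le_pow_right₀ (by norm_num) (by omega)
            calc ((2 : ℝ) ^ (n + r)) ^ (3 / 2 - g) ≤ (2 * 2 ^ n) ^ (3 / 2 - g) := Real.rpow_le_rpow (by positivity) h2 (by linarith)
              _ = 2 ^ (3 / 2 - g) * ((2 : ℝ) ^ n) ^ (3 / 2 - g) := Real.mul_rpow (by norm_num) hn0.le
              _ ≤ 4 * ((2 : ℝ) ^ n) ^ (3 / 2 - g) := by
                  refine mul_le_mul_of_nonneg_right ?_ (by positivity)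
                  calc (2 : ℝ) ^ (3 / 2 - g) ≤ 2 ^ (2 : ℝ) := Real.rpow_le_rpow_of_exponent_le (by norm_num) (by linarith)
                    _ = 4 := by norm_num
        _ = nT * (2 * (4 * ((2 : ℝ) ^ n) ^ (3 / 2 - g))) := by
            rw [Finset.sum_const, Finset.sum_const, Finset.card_univ, Fintype.card_fin, Finset.card_range, nsmul_eq_mul, nsmul_eq_mul]
            push_cast
            ring
    have hg2 : 0 < ((2 : ℝ) ^ n) ^ (-g) := Real.rpow_pos_of_pos hn0 _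
    have hone : 1 ≤ R₀ ^ (1 / 2 : ℝ) * ((2 : ℝ) ^ n) ^ (-g) := by
      have h3 : ((2 : ℝ) ^ n) ^ g ≤ R₀ ^ (1 / 2 : ℝ) := by
        calc ((2 : ℝ) ^ n) ^ g ≤ ((2 : ℝ) ^ n) ^ (1 / 2 : ℝ) := Real.rpow_le_rpow_of_exponent_le hn1' (by linarith)
          _ ≤ R₀ ^ (1 / 2 : ℝ) := by
              refine Real.rpow_le_rpow hn0.le ?_ (by norm_num)
              calc (2 : ℝ) ^ n ≤ 2 ^ (n + 1) := pow_le_pow_right₀ (by norm_num) (by omega)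
                _ ≤ R₀ ^ (1 / 2 + e2) := hn2
                _ ≤ R₀ ^ (1 : ℝ) := Real.rpow_le_rpow_of_exponent_le hR₀1 (by linarith)
                _ = R₀ := Real.rpow_one _
      have h4 : ((2 : ℝ) ^ n) ^ g * ((2 : ℝ) ^ n) ^ (-g) = 1 := by
        rw [← Real.rpow_add hn0]
        simp
      calc (1 : ℝ) = ((2 : ℝ) ^ n) ^ g * ((2 : ℝ) ^ n) ^ (-g) := h4.symm
        _ ≤ _ := mul_le_mul_of_nonneg_right h3 hg2.le
    have h32 : ((2 : ℝ) ^ n) ^ (-(3 / 2) : ℝ) * ((2 : ℝ) ^ n) ^ (3 / 2 - g) = ((2 : ℝ) ^ n) ^ (-g) := by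
      rw [← Real.rpow_add hn0]
      congr 1
      ring
    have hA : Ct * R₀ ^ (1 / 2 : ℝ) * ((2 : ℝ) ^ n) ^ (-(3 / 2) : ℝ) * (nT * (2 * (4 * ((2 : ℝ) ^ n) ^ (3 / 2 - g)))) =
        8 * nT * Ct * (R₀ ^ (1 / 2 : ℝ) * ((2 : ℝ) ^ n) ^ (-g)) := by
      rw [← h32]
      ring
    have hfin : ((2 : ℝ) ^ n) ^ (-g) ≤ ((2 : ℝ) ^ n) ^ (-(ε * g / 2)) :=
      Real.rpow_le_rpow_of_exponent_le hn1' (by nlinarith)
    have hRh : 0 < R₀ ^ (1 / 2 : ℝ) := Real.rpow_pos_of_pos hR₀0 _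
    calc Ct * R₀ ^ (1 / 2 : ℝ) * ((2 : ℝ) ^ n) ^ (-(3 / 2) : ℝ) * (∑ i, ∑ r ∈ Finset.range 2,
              ∫ α in Icc (-π) π ∩ {α | 1 / 2 ≤ |cos α|}, k0 ((R₀ * 2 ^ n) ^ (-(1 / 2) : ℝ)) α *
                ‖Sc (Hw H₀ w) (blk (n + r)) (b n i α) R α c'‖) + Ct ≤
          Ct * R₀ ^ (1 / 2 : ℝ) * ((2 : ℝ) ^ n) ^ (-(3 / 2) : ℝ) * (nT * (2 * (4 * ((2 : ℝ) ^ n) ^ (3 / 2 - g)))) +
            Ct * (R₀ ^ (1 / 2 : ℝ) * ((2 : ℝ) ^ n) ^ (-g)) := by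
          refine add_le_add (mul_le_mul_of_nonneg_left hsum (by positivity)) ?_
          nlinarith
      _ = (8 * nT + 1) * Ct * (R₀ ^ (1 / 2 : ℝ) * ((2 : ℝ) ^ n) ^ (-g)) := by rw [hA]; ring
      _ ≤ D * (R₀ ^ (1 / 2 : ℝ) * ((2 : ℝ) ^ n) ^ (-g)) := by
          refine mul_le_mul_of_nonneg_right ?_ (by positivity)
          rw [hD]
          have : 0 ≤ (nT : ℝ) * (2 * C * (1 - ρ)⁻¹) := by positivity
          linarith
      _ ≤ D * (R₀ ^ (1 / 2 : ℝ) * ((2 : ℝ) ^ n) ^ (-(ε * g / 2))) := by gcongr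
      _ = _ := by ring

end Pool.Agent.Helper60.AO
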