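import Pool.Agent.Helper60.AO.Mean
import Pool.Agent.Helper85.AO.LamU
import Pool.Agent.Helper85.AO.Sob

/-!
# AO-H10: the key proposition with a power saving, uniform in the base

The same proof as `Helper60/AD/Key.lean`: the arcs go down to `x^(-1/2-δ)`, the Sobolev parameter is `κ = x^(1+2δ) / M^(2s)`.
-/

open MeasureTheory Real Set Filter Topology

set_option autoImplicit false

namespace Pool.Agent.Helper60.AO

open Pool.Agent.Helper22.AE Pool.Agent.Helper60.AD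
open Pool.Agent.Helper92.GC (dt sqa)
open Pool.Agent.Helper96.AD (cs_prod Yq_cont Yq_le)
open Pool.Agent.Helper43.AD (fq_card arc_child)
open Pool.Agent.Helper85.AO (lam_blk_u Yq_sob_u)

/-- the exponents (block H9) -/
def Exp3 (ε : ℝ) : Prop :=
    ∃ (m : ℕ) (u δ g e2 e3 : ℝ), 1 ≤ m ∧ 0 < u ∧ 0 < δ ∧ δ ≤ 1 / 100 ∧ m * u = 1 / 2 + δ ∧ 0 < g ∧ g ≤ 1 / 100 ∧ 0 < e2 ∧ e2 ≤ 1 / 100 ∧ 0 < e3 ∧
      ∀ Cg : ℝ, 0 ≤ Cg → ∃ C R₁ : ℝ, 0 < C ∧ 1 ≤ R₁ ∧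
      ∀ R₀ : ℝ, R₁ ≤ R₀ → ∀ x : ℝ, R₀ ^ ε ≤ x → x ≤ R₀ ^ (1 / 2 + e2) →
      ∀ M : ℕ, M = ⌊x ^ u⌋₊ → ∀ Jm : ℕ, Jm = ⌊1 / ε⌋₊ + 6 →
        1 ≤ M ∧ (M : ℝ) ^ m ≤ x ^ (1 / 2 + δ) ∧ 2 * (8 * (4 * (Jm : ℝ)) ^ m * Dc x M m) * 20 ≤ x ^ (3 / 2 - g) ∧
        ∀ s < m, ∃ J : ℕ, 3 ≤ J ∧ J ≤ Jm ∧ ∃ lm : ℝ, 1 ≤ lm ∧
          (2 * (8 * (4 * (Jm : ℝ)) ^ m * (2 * M)) * m * 20 / x ^ (3 / 2 - g)) ^ (2 * J) *
            (20 * ((M : ℝ) ^ J * (FQ x M s J * (Cg * (x ^ (1 + 2 * δ) / ((M : ℝ) ^ s) ^ 2) * (R₀ *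
              (8 * (M : ℝ) ^ s * (Dc x M (s + 1) ^ J * Nc J M s (R₀ ^ (-1 + e3)) lm +
                  Dc x M (s + 1) ^ (2 * J) * exp (-(π / 16) * R₀ ^ 2 * (R₀ ^ (-1 + e3)) ^ 2)) +
                5 * (4 * lm + 1) ^ 3 * (Dc x M (s + 1) ^ J * Nc J M s (R₀ ^ (-1 + e3)) 1 +
                  Dc x M (s + 1) ^ (2 * J) * exp (-(π / 16) * R₀ ^ 2 * (R₀ ^ (-1 + e3)) ^ 2)))))))) ≤
            C * x ^ (-g)

/-- the parameter of the Sobolev inequality -/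
noncomputable def kap (x δ : ℝ) (M s : ℕ) : ℝ := x ^ (1 + 2 * δ) / ((M : ℝ) ^ s) ^ 2

theorem kap_ge {x δ : ℝ} (hx : 1 ≤ x) {M s : ℕ} (hM : 1 ≤ M) (hMs : (M : ℝ) ^ s ≤ x ^ (1 / 2 + δ)) : 1 ≤ kap x δ M s := by
  have hx0 : 0 < x := by linarith
  have hM0 : (0 : ℝ) < M := by exact_mod_cast hM
  unfold kap
  rw [le_div_iff₀ (by positivity), one_mul]
  have h3 : ((M : ℝ) ^ s) ^ 2 ≤ (x ^ (1 / 2 + δ)) ^ 2 := pow_le_pow_left₀ (by positivity) hMs 2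
  refine h3.trans (le_of_eq ?_)
  rw [← Real.rpow_natCast, ← Real.rpow_mul hx0.le]
  congr 1
  push_cast
  ring

theorem lam_rg_u (L : ℕ) (V : ℝ) :
    ∃ C : ℝ, 0 < C ∧ ∀ H₀ : ℝ → ℝ, ContDiff ℝ 2 H₀ → Function.Periodic H₀ (2 * π) → (∀ θ, |rho H₀ θ| ≤ V) →
      ∀ (i : Ix L) (n M s j : ℕ) (δ : ℝ), 0 ≤ δ → 1 ≤ M → (M : ℝ) ^ s ≤ ((2 : ℝ) ^ n) ^ (1 / 2 + δ) → ∀ α ∈ rg (2 ^ n),
      ∀ k ∈ arcSet (blk n) (8 * M ^ s) j, |lam (bas H₀ i) (th M s j) α k| ≤ C * kap (2 ^ n) δ M s := by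
  obtain ⟨C, hC, h⟩ := lam_blk_u L V
  refine ⟨2 * C, by positivity, ?_⟩
  intro H₀ h0 hp hV i n M s j δ hδ hM hMs α hα k hk
  have h1 := h H₀ h0 hp hV i n M s j hM α k hk
  unfold th
  refine h1.trans ?_
  obtain ⟨x, hx⟩ : ∃ x : ℝ, x = 2 ^ n := ⟨_, rfl⟩
  rw [← hx] at hMs hα ⊢
  have hx1 : 1 ≤ x := by rw [hx]; exact one_le_pow₀ (by norm_num)
  have hx0 : 0 < x := by linarith
  have hM0 : (0 : ℝ) < (M : ℝ) ^ s := by
    have : (0 : ℝ) < M := by exact_mod_cast hM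
    positivity
  have hxd : 1 ≤ x ^ δ := Real.one_le_rpow hx1 hδ
  have h2 : |sin α| ≤ x ^ δ / (M : ℝ) ^ s := by
    rw [le_div_iff₀ hM0]
    calc |sin α| * (M : ℝ) ^ s ≤ |sin α| * x ^ (1 / 2 + δ) := mul_le_mul_of_nonneg_left hMs (abs_nonneg _)
      _ = (|sin α| * x ^ (1 / 2 : ℝ)) * x ^ δ := by rw [Real.rpow_add hx0]; ring
      _ ≤ 1 * x ^ δ := mul_le_mul_of_nonneg_right hα.2 (by positivity)
      _ = x ^ δ := one_mul _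
  have h3 : 1 / (M : ℝ) ^ s ≤ x ^ δ / (M : ℝ) ^ s := by gcongr
  have h4 : x ^ (1 + 2 * δ) = x * x ^ δ * x ^ δ := by
    rw [show (1 + 2 * δ : ℝ) = 1 + δ + δ by ring, Real.rpow_add hx0, Real.rpow_add hx0, Real.rpow_one]
  unfold kap
  rw [h4]
  calc C * (x / (M : ℝ) ^ s * (1 / (M : ℝ) ^ s + |sin α|)) ≤
        C * (x / (M : ℝ) ^ s * (x ^ δ / (M : ℝ) ^ s + x ^ δ / (M : ℝ) ^ s)) := by gcongr
    _ = 2 * C * (x * x ^ δ * 1 / ((M : ℝ) ^ s) ^ 2) := by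
        field_simp
        ring
    _ ≤ 2 * C * (x * x ^ δ * x ^ δ / ((M : ℝ) ^ s) ^ 2) := by gcongr

/-- the pointwise bound from the multiscale decomposition -/
theorem point_le3 {L : ℕ} {H₀ : ℝ → ℝ} {Bd : ℝ} {Jm : ℕ} {Cs C0 : ℝ}
    (hsob : ∀ (J : ℕ), J ≤ Jm → ∀ (A : Fin J → Finset (ℤ × ℤ)) (b : ℤ × ℤ → ℂ) (θ α κ R₀ : ℝ), 1 ≤ κ → 1 ≤ R₀ →
      ∀ w : (Fin L → ℝ) × (Fin L → ℝ), ‖w‖ ≤ Bd → ∀ R ∈ Icc (R₀ / 2) (4 * R₀),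
        Yq (Hw H₀ w) A (fun _ => b) R α ≤ Cs * κ * Ys H₀ A b θ (C0 * κ) R₀ α w)
    {n M m : ℕ} {δ : ℝ} (hM : 1 ≤ M) (hMm : (M : ℝ) ^ m ≤ ((2 : ℝ) ^ n) ^ (1 / 2 + δ)) (J : ℕ → ℕ) (hJ : ∀ s, 1 ≤ J s ∧ J s ≤ Jm)
    {R₀ : ℝ} (hR₀ : 1 ≤ R₀) (b : ℤ × ℤ → ℂ) (hb : ∀ k, ‖b k‖ ≤ 1) (w : (Fin L → ℝ) × (Fin L → ℝ)) (hw : ‖w‖ ≤ Bd)
    {R : ℝ} (hR : R ∈ Icc (R₀ / 2) (4 * R₀)) (α : ℝ) (c : ℝ × ℝ) :
    ‖Sc (Hw H₀ w) (blk n) b R α c‖ ≤ 8 * (4 * (Jm : ℝ)) ^ m * Dc (2 ^ n) M m + 8 * (4 * (Jm : ℝ)) ^ m * (2 * M) *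
      ∑ s ∈ Finset.range m, (Gk H₀ n M s (J s) Cs C0 (kap (2 ^ n) δ M s) R₀ (fun _ => b) α w) ^ (1 / (2 * (J s : ℝ))) := by
  have hM0 : (0 : ℝ) < M := by exact_mod_cast hM
  have hM1 : (1 : ℝ) ≤ M := by exact_mod_cast hM
  have hJm1 : (1 : ℝ) ≤ 4 * (Jm : ℝ) := by
    have : 1 ≤ Jm := (hJ 0).1.trans (hJ 0).2
    have : (1 : ℝ) ≤ Jm := by exact_mod_cast this
    linarith
  have hx0 : (0 : ℝ) < 2 ^ n := by positivity
  have h1 := multiscale (blk n) (fun k => b k * ee (-(R * (nk k * gph (Hw H₀ w) k α))) * ee (dt k c)) hM J hJ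
      (D := Dc (2 ^ n) M m) (m := m) (by
        intro j
        calc ‖∑ k ∈ arcSet (blk n) (8 * M ^ m) j, b k * ee (-(R * (nk k * gph (Hw H₀ w) k α))) * ee (dt k c)‖ ≤
            ((arcSet (blk n) (8 * M ^ m) j).card : ℝ) := Sc_norm_le _ _ b hb R α c
          _ ≤ 2 * (4 * 2 ^ n + 1) * (6 * 2 ^ n * (2 * π / ((8 * M ^ m : ℕ) : ℝ)) + 1) :=
              arc_card n (by
                have : 1 ≤ M ^ m := Nat.one_le_pow _ _ hM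
                omega) j
          _ = Dc (2 ^ n) M m := by
              unfold Dc
              push_cast
              ring)
  rw [Finset.mul_sum]
  refine le_trans h1 (add_le_add le_rfl (Finset.sum_le_sum ?_))
  intro s hs
  have hs' : s < m := Finset.mem_range.mp hs
  have hx1 : (1 : ℝ) ≤ 2 ^ n := one_le_pow₀ (by norm_num)
  have hκ : 1 ≤ kap (2 ^ n) δ M s := kap_ge hx1 hM ((pow_le_pow_right₀ hM1 hs'.le).trans hMm)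
  have h2 : ∑ j ∈ Finset.range (8 * M ^ s), ∑ a ∈ gapT (J s) M,
        ∏ t, ‖∑ k ∈ arcSet (blk n) (8 * M ^ (s + 1)) (M * j + a t),
          b k * ee (-(R * (nk k * gph (Hw H₀ w) k α))) * ee (dt k c)‖ ^ 2 ≤ Gk H₀ n M s (J s) Cs C0 (kap (2 ^ n) δ M s) R₀ (fun _ => b) α w := by
    unfold Gk
    refine Finset.sum_le_sum fun j _ => Finset.sum_le_sum fun a _ => ?_
    exact tuple_le hM b a w c (hsob (J s) (hJ s).2 _ b (th M s j) α _ R₀ hκ hR₀ w hw R hR)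
  have h0 : 0 ≤ ∑ j ∈ Finset.range (8 * M ^ s), ∑ a ∈ gapT (J s) M,
        ∏ t, ‖∑ k ∈ arcSet (blk n) (8 * M ^ (s + 1)) (M * j + a t),
          b k * ee (-(R * (nk k * gph (Hw H₀ w) k α))) * ee (dt k c)‖ ^ 2 :=
    Finset.sum_nonneg fun j _ => Finset.sum_nonneg fun a _ => Finset.prod_nonneg fun t _ => by positivity
  have h3 : (0 : ℝ) ≤ 1 / (2 * (J s : ℝ)) := by positivity
  have h4 : (4 * (Jm : ℝ)) ^ s ≤ (4 * (Jm : ℝ)) ^ m := pow_le_pow_right₀ hJm1 hs'.le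
  have h5 : (0 : ℝ) ≤ 2 * M := by positivity
  refine mul_le_mul (mul_le_mul_of_nonneg_right (mul_le_mul_of_nonneg_left h4 (by norm_num)) h5)
    (Real.rpow_le_rpow h0 h2 h3) (Real.rpow_nonneg h0 _) (by positivity)


open Classical in
theorem key3' {ε : ℝ} (hE3 : Exp3 ε) (hε : 0 < ε) {L : ℕ} (hL : 2 / ε + 12 ≤ L) :
    ∃ (g e2 : ℝ), 0 < g ∧ g ≤ 1 / 100 ∧ 0 < e2 ∧ e2 ≤ 1 / 100 ∧ ∀ V Bd : ℝ, ∃ (C R₁ : ℝ), 0 < C ∧ 1 ≤ R₁ ∧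
      ∀ H₀ : ℝ → ℝ, ContDiff ℝ 2 H₀ → Function.Periodic H₀ (2 * π) → (∀ θ, |rho H₀ θ| ≤ V) → ∀ R₀ : ℝ, R₁ ≤ R₀ → ∀ n : ℕ,
      R₀ ^ ε ≤ (2 : ℝ) ^ n → (2 : ℝ) ^ n ≤ R₀ ^ (1 / 2 + e2) → ∀ β : ℝ, 0 < β →
      ∀ b : ℝ → ℤ × ℤ → ℂ, (∀ k, Continuous (fun α => b α k)) → (∀ α k, ‖b α k‖ ≤ 1) →
        ∃ E : Set ((Fin L → ℝ) × (Fin L → ℝ)), (gm L).real E ≤ C * ((2 : ℝ) ^ n) ^ (-g) ∧
          ∀ w ∉ E, ‖w‖ ≤ Bd → ∀ R ∈ Icc (R₀ / 2) (4 * R₀), ∀ c : ℝ × ℝ,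
            ∫ α in rg (2 ^ n), k0 β α * ‖Sc (Hw H₀ w) (blk n) (b α) R α c‖ ≤ 3 / 4 * ((2 : ℝ) ^ n) ^ (3 / 2 - g) := by
  obtain ⟨m, u, δ, g, e2, e3, hm, hu, hδ, hδ1, hmu, hg, hg1, he2, he2', he3, hexp0⟩ := hE3
  refine ⟨g, e2, hg, hg1, he2, he2', fun V Bd => ?_⟩
  obtain ⟨Jm, hJm⟩ : ∃ Jm : ℕ, Jm = ⌊1 / ε⌋₊ + 6 := ⟨_, rfl⟩
  obtain ⟨C0, hC0, hlam⟩ := lam_rg_u L V
  obtain ⟨Cs, hCs, hsob⟩ := Yq_sob_u L Bd Jm hC0
  obtain ⟨C, R₁, hC, hR₁, hexp⟩ := hexp0 (Cs * (4 * (1 + Jm * (2 * L + 1)))) (by positivity)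
  have hm0 : (0 : ℝ) < m := by exact_mod_cast (by omega : 0 < m)
  refine ⟨m * (4 ^ (2 * Jm) * C), R₁, by positivity, hR₁, ?_⟩
  intro H₀ h0 hp hV R₀ hR₀ n hn1 hn2 β hβ b hbc hb1
  have hR₀1 : 1 ≤ R₀ := hR₁.trans hR₀
  have hR₀0 : 0 < R₀ := by linarith
  obtain ⟨x, hx⟩ : ∃ x : ℝ, x = 2 ^ n := ⟨_, rfl⟩
  have hx1 : 1 ≤ x := by rw [hx]; exact one_le_pow₀ (by norm_num)
  have hx0 : 0 < x := by linarith
  obtain ⟨M, hM⟩ : ∃ M : ℕ, M = ⌊x ^ u⌋₊ := ⟨_, rfl⟩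
  obtain ⟨hM1, hMm, hD, hs⟩ := hexp R₀ hR₀ x (by rw [hx]; exact hn1) (by rw [hx]; exact hn2) M hM Jm hJm
  have hJL : 2 * Jm ≤ L := by
    have h1 : ((⌊1 / ε⌋₊ : ℕ) : ℝ) ≤ 1 / ε := Nat.floor_le (by positivity)
    have h2 : ((2 * Jm : ℕ) : ℝ) ≤ L := by
      rw [hJm]
      push_cast
      have h3 : 2 * (1 / ε) = 2 / ε := by ring
      linarith
    exact_mod_cast h2
  choose! J hJ3 hJJm lm hlm hexps using hs
  obtain ⟨J', hJ'⟩ : ∃ J' : ℕ → ℕ, J' = fun s => if s < m then J s else 2 := ⟨_, rfl⟩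
  have hJ's : ∀ s, s < m → J' s = J s := fun s hs => by rw [hJ']; exact if_pos hs
  have hJ'b : ∀ s, 1 ≤ J' s ∧ J' s ≤ Jm := by
    intro s
    by_cases h : s < m
    · rw [hJ's s h]
      exact ⟨by have := hJ3 s h; omega, hJJm s h⟩
    · rw [hJ']
      simp only [h, if_false]
      constructor
      · norm_num
      · omega
  have hM0 : (0 : ℝ) < M := by exact_mod_cast (by omega : 0 < M)
  have hM1' : (1 : ℝ) ≤ M := by exact_mod_cast hM1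
  have hMs : ∀ s < m, (M : ℝ) ^ s ≤ ((2 : ℝ) ^ n) ^ (1 / 2 + δ) := by
    intro s hs
    rw [← hx]
    exact (pow_le_pow_right₀ hM1' hs.le).trans hMm
  have hkap0 : ∀ s, 0 < kap x δ M s := by
    intro s
    unfold kap
    have : 0 < x ^ (1 + 2 * δ) := Real.rpow_pos_of_pos hx0 _
    positivity
  have hlam' : ∀ s < m, ∀ α ∈ rg (2 ^ n), ∀ (i : Ix L) (j : ℕ), ∀ k ∈ arcSet (blk n) (8 * M ^ s) j,
      |lam (bas H₀ i) (th M s j) α k| ≤ C0 * kap x δ M s := fun s hs α hα i j k hk => by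
    rw [hx]
    exact hlam H₀ h0 hp hV i n M s j δ hδ.le hM1 (hMs s hs) α hα k hk
  -- the functions
  obtain ⟨X, hX⟩ : ∃ X : ℕ → ℝ → ((Fin L → ℝ) × (Fin L → ℝ)) → ℝ,
      X = fun s α w => if s < m then (if α ∈ rg (2 ^ n) then Gk H₀ n M s (J' s) Cs C0 (kap x δ M s) R₀ b α w else 0) else 0 := ⟨_, rfl⟩
  obtain ⟨c0, hc0⟩ : ∃ c0 : ℝ, c0 = 8 * (4 * (Jm : ℝ)) ^ m * Dc x M m := ⟨_, rfl⟩
  obtain ⟨c1, hc1⟩ : ∃ c1 : ℝ, c1 = 8 * (4 * (Jm : ℝ)) ^ m * (2 * M) := ⟨_, rfl⟩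
  obtain ⟨F, hF⟩ : ∃ F : ℝ → ((Fin L → ℝ) × (Fin L → ℝ)) → ℝ,
      F = fun α w => 0 + c1 * ∑ s ∈ Finset.range m, X s α w ^ (1 / (2 * (J' s : ℝ))) := ⟨_, rfl⟩
  have hDc0 : 0 ≤ Dc x M m := by
    unfold Dc
    positivity
  have hJmp : (0 : ℝ) < Jm := by
    rw [hJm]
    push_cast
    positivity
  have hc00 : 0 ≤ c0 := by rw [hc0]; positivity
  have hc1p : 0 < c1 := by rw [hc1]; positivity
  -- bounds
  obtain ⟨BX, hBX⟩ : ∃ BX : ℕ → ℝ, BX = fun s => 8 * (M : ℝ) ^ s * ((M : ℝ) ^ (J' s) * (FQ (2 ^ n) M s (J' s) * (Cs * kap x δ M s *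
        (4 * R₀ * (1 + J' s * (2 * L + 1)) * ((blk n).card ^ (J' s) : ℝ) ^ 2)))) := ⟨_, rfl⟩
  have hBX0 : ∀ s, 0 ≤ BX s := by
    intro s
    rw [hBX]
    have : 0 ≤ FQ (2 ^ n) M s (J' s) := by
      unfold FQ
      positivity
    have := hkap0 s
    positivity
  have hXb : ∀ s α w, 0 ≤ X s α w ∧ X s α w ≤ BX s := by
    intro s α w
    rw [hX]
    by_cases h : s < m
    · by_cases h' : α ∈ rg (2 ^ n)
      · simp only [h, h', if_true]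
        have h3 := Gk_le (L := L) (H₀ := H₀) (n := n) (s := s) (J := J' s) hM1 hCs.le hC0 (hkap0 s) hR₀0 b hb1 (hlam' s h α h') w
        rw [hBX]
        exact h3
      · simp only [h, h', if_true, if_false]
        exact ⟨le_rfl, hBX0 s⟩
    · simp only [h, if_false]
      exact ⟨le_rfl, hBX0 s⟩
  obtain ⟨BB, hBB⟩ : ∃ BB : ℝ, BB = (∑ s ∈ Finset.range m, BX s) + (0 + c1 * ∑ s ∈ Finset.range m, BX s ^ (1 / (2 * (J' s : ℝ)))) := ⟨_, rfl⟩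
  have hsum1 : 0 ≤ ∑ s ∈ Finset.range m, BX s := Finset.sum_nonneg fun s _ => hBX0 s
  have hsum2 : 0 ≤ ∑ s ∈ Finset.range m, BX s ^ (1 / (2 * (J' s : ℝ))) := Finset.sum_nonneg fun s _ => Real.rpow_nonneg (hBX0 s) _
  have hX0 : ∀ s α w, 0 ≤ X s α w ∧ X s α w ≤ BB := by
    intro s α w
    refine ⟨(hXb s α w).1, ?_⟩
    rw [hBB]
    by_cases h : s < m
    · have h1 := (hXb s α w).2
      have h2 := Finset.single_le_sum (fun s _ => hBX0 s) (Finset.mem_range.mpr h)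
      have h3 : 0 ≤ c1 * ∑ s ∈ Finset.range m, BX s ^ (1 / (2 * (J' s : ℝ))) := mul_nonneg hc1p.le hsum2
      linarith
    · have h1 : X s α w = 0 := by
        rw [hX]
        simp only [h, if_false]
      rw [h1]
      have h3 : 0 ≤ c1 * ∑ s ∈ Finset.range m, BX s ^ (1 / (2 * (J' s : ℝ))) := mul_nonneg hc1p.le hsum2
      linarith
  have hF0 : ∀ α w, 0 ≤ F α w ∧ F α w ≤ BB := by
    intro α w
    rw [hF]
    constructor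
    · exact add_nonneg le_rfl (mul_nonneg hc1p.le (Finset.sum_nonneg fun s _ => Real.rpow_nonneg (hXb s α w).1 _))
    · rw [hBB]
      have h1 : ∑ s ∈ Finset.range m, X s α w ^ (1 / (2 * (J' s : ℝ))) ≤ ∑ s ∈ Finset.range m, BX s ^ (1 / (2 * (J' s : ℝ))) :=
        Finset.sum_le_sum fun s _ => Real.rpow_le_rpow (hXb s α w).1 (hXb s α w).2 (by positivity)
      have h2 := mul_le_mul_of_nonneg_left h1 hc1p.le
      simp only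
      linarith
  -- measurability
  have hXm : ∀ s, Measurable (Function.uncurry (X s)) := by
    intro s
    rw [hX]
    by_cases h : s < m
    · simp only [h, if_true]
      have h1 : Measurable (fun p : ℝ × ((Fin L → ℝ) × (Fin L → ℝ)) => Gk H₀ n M s (J' s) Cs C0 (kap x δ M s) R₀ b p.1 p.2) :=
        (Gk_cont h0 n M s (J' s) Cs C0 (kap x δ M s) R₀ b hbc).measurable
      have h2 : MeasurableSet {p : ℝ × ((Fin L → ℝ) × (Fin L → ℝ)) | p.1 ∈ rg (2 ^ n)} := measurable_fst (rg_meas (2 ^ n))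
      exact Measurable.ite h2 h1 measurable_const
    · simp only [h, if_false]
      exact measurable_const
  have hFm : Measurable (Function.uncurry F) := by
    rw [hF]
    have h1 : Measurable (fun p : ℝ × ((Fin L → ℝ) × (Fin L → ℝ)) => 0 + c1 * ∑ s ∈ Finset.range m,
        (Function.uncurry (X s) p) ^ (1 / (2 * (J' s : ℝ)))) :=
      measurable_const.add (measurable_const.mul (Finset.measurable_sum _ fun s _ => (hXm s).pow_const _))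
    exact h1
  obtain ⟨e, he⟩ : ∃ e : ℕ → ℝ, e = fun s => (M : ℝ) ^ (J' s) * (FQ x M s (J' s) * (Cs * (4 * (1 + Jm * (2 * L + 1))) *
        kap x δ M s * (R₀ * (8 * (M : ℝ) ^ s * (Dc x M (s + 1) ^ (J' s) * Nc (J' s) M s (R₀ ^ (-1 + e3)) (lm s) +
            Dc x M (s + 1) ^ (2 * (J' s)) * exp (-(π / 16) * R₀ ^ 2 * (R₀ ^ (-1 + e3)) ^ 2)) +
          5 * (4 * lm s + 1) ^ 3 * (Dc x M (s + 1) ^ (J' s) * Nc (J' s) M s (R₀ ^ (-1 + e3)) 1 +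
            Dc x M (s + 1) ^ (2 * (J' s)) * exp (-(π / 16) * R₀ ^ 2 * (R₀ ^ (-1 + e3)) ^ 2)))))) := ⟨_, rfl⟩
  have hη : 0 < R₀ ^ (-1 + e3) := Real.rpow_pos_of_pos hR₀0 _
  have he0 : ∀ s < m, 0 ≤ e s := by
    intro s hs
    rw [he]
    have h1 : 0 ≤ Dc x M (s + 1) := by
      unfold Dc
      positivity
    have h2 : 0 ≤ FQ x M s (J' s) := by
      unfold FQ
      positivity
    have h3 := hkap0 s
    have h4 : 0 ≤ Nc (J' s) M s (R₀ ^ (-1 + e3)) (lm s) := Nc_nonneg hη.le (by have := hlm s hs; linarith)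
    have h5 : 0 ≤ Nc (J' s) M s (R₀ ^ (-1 + e3)) 1 := Nc_nonneg hη.le zero_le_one
    have h6 : 0 ≤ 4 * lm s + 1 := by have := hlm s hs; linarith
    positivity
  have hmean : ∀ s < m, ∀ᵐ α ∂(nuA β (2 ^ n)), ∫ w, X s α w ∂(gm L) ≤ e s := by
    intro s hs
    have hac : nuA β (2 ^ n) ≪ volume.restrict (rg (2 ^ n)) := withDensity_absolutelyContinuous _ _
    refine hac.ae_le ?_
    filter_upwards [ae_restrict_mem (rg_meas (2 ^ n))] with α hα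
    have h2 : ∫ w, X s α w ∂(gm L) = ∫ w, Gk H₀ n M s (J' s) Cs C0 (kap x δ M s) R₀ b α w ∂(gm L) := by
      rw [hX]
      simp only [hs, hα, if_true]
    rw [h2, he]
    have h1 := Gk_mean' (L := L) h0 (n := n) (s := s) (J := J' s) (Jm := Jm) (hJ'b s).1 (hJ'b s).2
      (by have := (hJ'b s).2; omega) hM1 hCs.le hC0 (hkap0 s) hR₀1 (hlm s hs) b hb1 hbc (hlam' s hs α hα) hα.1.2 hη
    rw [← hx] at h1
    exact h1
  have hfin := (nuA_mass hβ (2 ^ n)).1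
  have hmass := (nuA_mass hβ (2 ^ n)).2
  have hmain := markov_holder (gm L) (nuA β (2 ^ n)) (Cν := 20) (by norm_num) hmass hm F X hFm hXm hF0 hX0 J'
    (fun s => (hJ'b s).1) (c0 := 0) (c1 := c1) le_rfl hc1p (fun α w => by rw [hF]) e hmean he0
    (lam := x ^ (3 / 2 - g) / 4) (by rw [mul_zero, zero_mul]; exact (div_pos (Real.rpow_pos_of_pos hx0 _) (by norm_num)).le)
    (div_pos (Real.rpow_pos_of_pos hx0 _) (by norm_num))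
  refine ⟨{w | x ^ (3 / 2 - g) / 4 < ∫ α, F α w ∂(nuA β (2 ^ n))}, ?_, ?_⟩
  · rw [← hx]
    rw [← hx] at hmain
    refine hmain.trans ?_
    have hterm : ∀ s ∈ Finset.range m, (2 * c1 * m * 20 / (x ^ (3 / 2 - g) / 4)) ^ (2 * J' s) * (20 * e s) ≤
        4 ^ (2 * Jm) * C * x ^ (-g) := by
      intro s hs
      have hs' : s < m := Finset.mem_range.mp hs
      have hh := hexps s hs'
      have h1 : (2 * c1 * m * 20 / (x ^ (3 / 2 - g) / 4)) ^ (2 * J' s) = 4 ^ (2 * J' s) * (2 * c1 * m * 20 / x ^ (3 / 2 - g)) ^ (2 * J' s) := by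
        rw [← mul_pow]
        congr 1
        field_simp
      have h2 : (2 * c1 * m * 20 / x ^ (3 / 2 - g)) ^ (2 * J' s) * (20 * e s) ≤ C * x ^ (-g) := by
        rw [hc1, he]
        simp only
        rw [hJ's s hs']
        exact hh
      have h3 : (4 : ℝ) ^ (2 * J' s) ≤ 4 ^ (2 * Jm) := pow_le_pow_right₀ (by norm_num) (by have := (hJ'b s).2; omega)
      have h4 := mul_le_mul h3 h2 (mul_nonneg (by positivity) (mul_nonneg (by norm_num) (he0 s hs'))) (by positivity)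
      rw [h1]
      calc _ = 4 ^ (2 * J' s) * ((2 * c1 * m * 20 / x ^ (3 / 2 - g)) ^ (2 * J' s) * (20 * e s)) := by ring
        _ ≤ _ := h4
        _ = _ := by ring
    calc _ ≤ ∑ _s ∈ Finset.range m, 4 ^ (2 * Jm) * C * x ^ (-g) := Finset.sum_le_sum hterm
      _ = m * (4 ^ (2 * Jm) * C) * x ^ (-g) := by
          rw [Finset.sum_const, Finset.card_range, nsmul_eq_mul]
          ring
  · intro w hw hwB R hR c
    rw [mem_ofPred_eq, not_lt] at hw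
    rw [← hx]
    have hhalf : c0 * 20 ≤ x ^ (3 / 2 - g) / 2 := by
      rw [hc0]
      linarith
    have hcint : ∫ _α, c0 ∂(nuA β (2 ^ n)) ≤ c0 * 20 := by
      rw [integral_const, smul_eq_mul, mul_comm]
      exact mul_le_mul_of_nonneg_left hmass hc00
    rw [nuA_int hβ, ← hx] at hw hcint
    have hpt : ∀ α ∈ rg x, ‖Sc (Hw H₀ w) (blk n) (b α) R α c‖ ≤ c0 + F α w := by
      intro α hα
      have h1 := point_le3 (L := L) (H₀ := H₀) (Bd := Bd) (Jm := Jm) (hsob H₀ h0) (n := n) (M := M) (m := m) (δ := δ) hM1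
        (by rw [← hx]; exact hMm)
        J' hJ'b hR₀1 (b α) (hb1 α) w hwB hR α c
      refine h1.trans (le_of_eq ?_)
      rw [hF, hc0, hc1, ← hx]
      simp only [zero_add]
      congr 2
      refine Finset.sum_congr rfl fun s hs => ?_
      have hs' : s < m := Finset.mem_range.mp hs
      rw [hx] at hα
      rw [hX]
      simp only [hs', hα, if_true]
      rfl
    have hkc := k0_cont' hβ
    have hFi : IntegrableOn (fun α => k0 β α * F α w) (rg x) := by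
      have h1 : IntegrableOn (fun α => k0 β α * BB) (rg x) :=
        ((hkc.mul continuous_const).continuousOn.integrableOn_compact isCompact_Icc).mono_set (rg_sub x)
      refine h1.mono' ?_ (ae_of_all _ fun α => ?_)
      · exact (hkc.measurable.mul (hFm.comp measurable_prodMk_right)).aestronglyMeasurable
      · rw [Real.norm_eq_abs, abs_of_nonneg (mul_nonneg (k0_nonneg' hβ α) (hF0 α w).1)]
        exact mul_le_mul_of_nonneg_left (hF0 α w).2 (k0_nonneg' hβ α)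
    have hSi : IntegrableOn (fun α => k0 β α * ‖Sc (Hw H₀ w) (blk n) (b α) R α c‖) (rg x) :=
      ((hkc.mul (Sc_cont h0 w (blk n) b hbc R c).norm).continuousOn.integrableOn_compact isCompact_Icc).mono_set (rg_sub x)
    have hCi : IntegrableOn (fun α => k0 β α * c0) (rg x) :=
      ((hkc.mul continuous_const).continuousOn.integrableOn_compact isCompact_Icc).mono_set (rg_sub x)
    have hgoal : ∫ α in rg x, k0 β α * ‖Sc (Hw H₀ w) (blk n) (b α) R α c‖ ≤ ∫ α in rg x, (k0 β α * c0 + k0 β α * F α w) := by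
      refine setIntegral_mono_on hSi (hCi.add hFi) (rg_meas x) (fun α hα => ?_)
      rw [← mul_add]
      refine mul_le_mul_of_nonneg_left ?_ (k0_nonneg' hβ α)
      exact hpt α hα
    rw [integral_add hCi hFi] at hgoal
    linarith

/-- the key proposition -/
theorem key3_of {ε : ℝ} (hE3 : Exp3 ε) (hε : 0 < ε) {L : ℕ} (hL : 2 / ε + 12 ≤ L) :
    ∃ (g e2 : ℝ), 0 < g ∧ g ≤ 1 / 100 ∧ 0 < e2 ∧ e2 ≤ 1 / 100 ∧ ∀ V Bd : ℝ, ∃ (C R₁ : ℝ), 0 < C ∧ 1 ≤ R₁ ∧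
      ∀ H₀ : ℝ → ℝ, ContDiff ℝ 2 H₀ → Function.Periodic H₀ (2 * π) → (∀ θ, |rho H₀ θ| ≤ V) → ∀ R₀ : ℝ, R₁ ≤ R₀ → ∀ n : ℕ,
      R₀ ^ ε ≤ (2 : ℝ) ^ n → (2 : ℝ) ^ n ≤ R₀ ^ (1 / 2 + e2) → ∀ β : ℝ, 0 < β → β ≤ 2 * (R₀ * 2 ^ n) ^ (-(1 / 2) : ℝ) →
      ∀ b : ℝ → ℤ × ℤ → ℂ, (∀ k, Continuous (fun α => b α k)) → (∀ α k, ‖b α k‖ ≤ 1) →
        ∃ E : Set ((Fin L → ℝ) × (Fin L → ℝ)), (gm L).real E ≤ C * ((2 : ℝ) ^ n) ^ (-g) ∧
          ∀ w ∉ E, ‖w‖ ≤ Bd → ∀ R ∈ Icc (R₀ / 2) (4 * R₀), ∀ c : ℝ × ℝ,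
            ∫ α in Icc (-π) π ∩ {α | 1 / 2 ≤ |cos α|}, k0 β α * ‖Sc (Hw H₀ w) (blk n) (b α) R α c‖ ≤
              ((2 : ℝ) ^ n) ^ (3 / 2 - g) := by
  obtain ⟨g, e2, hg, hg1, he2, he2', hh⟩ := key3' hE3 hε hL
  refine ⟨g, e2, hg, hg1, he2, he2', fun V Bd => ?_⟩
  obtain ⟨C, R₁, hC, hR₁, h⟩ := hh V Bd
  refine ⟨C, max R₁ (8000 ^ (1 / (ε * (1 / 4)))), hC, hR₁.trans (le_max_left _ _), ?_⟩
  intro H₀ h0 hp hV R₀ hR₀ n hn1 hn2 β hβ hβ2 b hbc hb1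
  have hR1 : R₁ ≤ R₀ := (le_max_left _ _).trans hR₀
  have hR2 : (8000 : ℝ) ^ (1 / (ε * (1 / 4))) ≤ R₀ := (le_max_right _ _).trans hR₀
  have hR₀1 : 1 ≤ R₀ := hR₁.trans hR1
  have hR₀0 : 0 < R₀ := by linarith
  obtain ⟨E, hE, hEw⟩ := h H₀ h0 hp hV R₀ hR1 n hn1 hn2 β hβ b hbc hb1
  refine ⟨E, hE, fun w hw hwB R hR c => ?_⟩
  have h1 := hEw w hw hwB R hR c
  obtain ⟨x, hx⟩ : ∃ x : ℝ, x = 2 ^ n := ⟨_, rfl⟩
  rw [← hx] at h1 hn1 hn2 hβ2 ⊢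
  have hx1 : 1 ≤ x := by rw [hx]; exact one_le_pow₀ (by norm_num)
  have hx0 : 0 < x := by linarith
  have hg' : Continuous (fun α => ‖Sc (Hw H₀ w) (blk n) (b α) R α c‖) := (Sc_cont h0 w (blk n) b hbc R c).norm
  have h2 := out_le hβ hx1 (fun α => ‖Sc (Hw H₀ w) (blk n) (b α) R α c‖) hg' (G := 25 * 4 ^ n)
    (fun α => ⟨norm_nonneg _, (Sc_norm_le _ _ _ (hb1 α) R α c).trans (blk_card n)⟩)
  have hG : (25 : ℝ) * 4 ^ n = 25 * x ^ 2 := by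
    rw [hx, ← pow_mul, mul_comm n 2, pow_mul]
    norm_num
  rw [hG] at h2
  -- the trivial part
  have hb2 : β * x ^ (1 / 2 : ℝ) ≤ 2 * R₀ ^ (-(1 / 2) : ℝ) := by
    calc β * x ^ (1 / 2 : ℝ) ≤ 2 * (R₀ * x) ^ (-(1 / 2) : ℝ) * x ^ (1 / 2 : ℝ) :=
          mul_le_mul_of_nonneg_right hβ2 (Real.rpow_nonneg hx0.le _)
      _ = 2 * R₀ ^ (-(1 / 2) : ℝ) := by
          rw [Real.mul_rpow hR₀0.le hx0.le, mul_assoc, mul_assoc, ← Real.rpow_add hx0]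
          norm_num
  have hb4 : x ^ (9 / 10 : ℝ) ≤ R₀ ^ (1 / 2 : ℝ) := by
    calc x ^ (9 / 10 : ℝ) ≤ (R₀ ^ (1 / 2 + e2)) ^ (9 / 10 : ℝ) := Real.rpow_le_rpow hx0.le hn2 (by norm_num)
      _ = R₀ ^ ((1 / 2 + e2) * (9 / 10)) := by rw [← Real.rpow_mul hR₀0.le]
      _ ≤ R₀ ^ (1 / 2 : ℝ) := Real.rpow_le_rpow_of_exponent_le hR₀1 (by linarith)
  have hb3 : x ^ 2 * R₀ ^ (-(1 / 2) : ℝ) ≤ x ^ (11 / 10 : ℝ) := by
    have h3 : R₀ ^ (-(1 / 2) : ℝ) ≤ x ^ (-(9 / 10) : ℝ) := by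
      rw [Real.rpow_neg hR₀0.le, Real.rpow_neg hx0.le]
      exact inv_anti₀ (Real.rpow_pos_of_pos hx0 _) hb4
    calc x ^ 2 * R₀ ^ (-(1 / 2) : ℝ) ≤ x ^ 2 * x ^ (-(9 / 10) : ℝ) := mul_le_mul_of_nonneg_left h3 (by positivity)
      _ = x ^ (11 / 10 : ℝ) := by
          rw [← Real.rpow_natCast x 2, ← Real.rpow_add hx0]
          norm_num
  have hxe : 8000 ≤ x ^ (1 / 4 : ℝ) := by
    have h3 : (8000 : ℝ) ≤ (R₀ ^ ε) ^ (1 / 4 : ℝ) := by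
      rw [← Real.rpow_mul hR₀0.le]
      have h4 : ((8000 : ℝ) ^ (1 / (ε * (1 / 4)))) ^ (ε * (1 / 4)) ≤ R₀ ^ (ε * (1 / 4)) :=
        Real.rpow_le_rpow (by positivity) hR2 (by positivity)
      rw [← Real.rpow_mul (by norm_num), one_div_mul_cancel (by positivity), Real.rpow_one] at h4
      exact h4
    exact h3.trans (Real.rpow_le_rpow (by positivity) hn1 (by norm_num))
  have hsplit : x ^ (11 / 10 : ℝ) * x ^ (1 / 4 : ℝ) ≤ x ^ (3 / 2 - g) := by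
    rw [← Real.rpow_add hx0]
    exact Real.rpow_le_rpow_of_exponent_le hx1 (by linarith)
  have hx32 : 0 < x ^ (11 / 10 : ℝ) := Real.rpow_pos_of_pos hx0 _
  have htriv : 25 * x ^ 2 * (β * (40 * x ^ (1 / 2 : ℝ))) ≤ 1 / 4 * x ^ (3 / 2 - g) := by
    calc 25 * x ^ 2 * (β * (40 * x ^ (1 / 2 : ℝ))) = 1000 * x ^ 2 * (β * x ^ (1 / 2 : ℝ)) := by ring
      _ ≤ 1000 * x ^ 2 * (2 * R₀ ^ (-(1 / 2) : ℝ)) := mul_le_mul_of_nonneg_left hb2 (by positivity)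
      _ = 2000 * (x ^ 2 * R₀ ^ (-(1 / 2) : ℝ)) := by ring
      _ ≤ 2000 * x ^ (11 / 10 : ℝ) := by linarith
      _ ≤ 1 / 4 * (x ^ (11 / 10 : ℝ) * x ^ (1 / 4 : ℝ)) := by nlinarith
      _ ≤ 1 / 4 * x ^ (3 / 2 - g) := by linarith
  linarith

end Pool.Agent.Helper60.AO
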