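import Pool.Agent.Helper60.AO.Defs
import Pool.Agent.Helper56.AO.H6
import Pool.Agent.Helper64.AO.H5
import Pool.Agent.Helper99.AO.H4b

/-!
# AO-H7: the mean of `Gk`, general and special arcs
-/

open MeasureTheory Real Set Filter Topology

set_option autoImplicit false

namespace Pool.Agent.Helper60.AO

open Pool.Agent.Helper22.AE Pool.Agent.Helper60.AD
open Pool.Agent.Helper43.AD (arc_child)
open Pool.Agent.Helper56.AO (Ys_mean3)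
open Pool.Agent.Helper64.AO (special_card)
open Pool.Agent.Helper99.AO (cell_count gen_half)

private lemma gapT_card' (J M : ℕ) : ((gapT J M).card : ℝ) ≤ (M : ℝ) ^ J := by
  have h : (gapT J M).card ≤ M ^ J := by
    refine (Finset.card_filter_le _ _).trans ?_
    simp
  exact_mod_cast h

lemma Nc_nonneg {J M s : ℕ} {η lm : ℝ} (hη : 0 ≤ η) (hlm : 0 ≤ lm) : 0 ≤ Nc J M s η lm := by
  have h0 : 0 ≤ CJ J := by unfold CJ; positivity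
  unfold Nc
  have h1 : 0 ≤ ∏ m ∈ Finset.range (2 * J - 1), ((M : ℝ) ^ (s * m) * η * (2 * CJ J * (M : ℝ) ^ (4 * J)) + 1) :=
    Finset.prod_nonneg fun m _ => by positivity
  positivity

theorem Gk_cont {L : ℕ} {H₀ : ℝ → ℝ} (h0 : ContDiff ℝ 2 H₀) (n M s J : ℕ) (Cs C0 κ R₀ : ℝ) (b : ℝ → ℤ × ℤ → ℂ)
    (hb : ∀ k, Continuous (fun α => b α k)) :
    Continuous (fun p : ℝ × ((Fin L → ℝ) × (Fin L → ℝ)) => Gk H₀ n M s J Cs C0 κ R₀ b p.1 p.2) := by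
  unfold Gk
  refine continuous_finsetSum _ fun j _ => continuous_finsetSum _ fun a _ => continuous_const.mul (continuous_const.mul ?_)
  exact Ys_cont h0 _ b hb _ _ _

private lemma FQ_nonneg' {x M : ℝ} (hx : 0 ≤ x) (hM : 0 ≤ M) (s J : ℕ) : 0 ≤ FQ x M s J := by
  unfold FQ
  positivity

theorem Ch_sub {J n M s j : ℕ} (hM : 1 ≤ M) (a : Fin J → Fin M) (t : Fin J) : Ch n M s j a t ⊆ arcSet (blk n) (8 * M ^ s) j :=
  fun _ hk => arc_child (blk n) hM (a t).2 hk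

/-- the trivial bound -/
theorem Gk_le {L : ℕ} {H₀ : ℝ → ℝ} {n M s J : ℕ} (hM : 1 ≤ M) {Cs C0 κ R₀ : ℝ} (hCs : 0 ≤ Cs) (hC0 : 0 < C0) (hκ : 0 < κ) (hR₀ : 0 < R₀)
    (b : ℝ → ℤ × ℤ → ℂ) (hb : ∀ α k, ‖b α k‖ ≤ 1) {α : ℝ}
    (hlam : ∀ (i : Ix L) (j : ℕ), ∀ k ∈ arcSet (blk n) (8 * M ^ s) j, |lam (bas H₀ i) (th M s j) α k| ≤ C0 * κ)
    (w : (Fin L → ℝ) × (Fin L → ℝ)) :
    0 ≤ Gk H₀ n M s J Cs C0 κ R₀ b α w ∧ Gk H₀ n M s J Cs C0 κ R₀ b α w ≤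
      8 * (M : ℝ) ^ s * ((M : ℝ) ^ J * (FQ (2 ^ n) M s J * (Cs * κ *
        (4 * R₀ * (1 + J * (2 * L + 1)) * ((blk n).card ^ J : ℝ) ^ 2)))) := by
  have hMp : (0 : ℝ) < M := by exact_mod_cast hM
  have hq0 : 0 < C0 * κ := by positivity
  have hF0 : 0 ≤ FQ (2 ^ n) M s J := FQ_nonneg' (by positivity) hMp.le _ _
  have h1 : ∀ (j : ℕ) (a : Fin J → Fin M), 0 ≤ Ys H₀ (Ch n M s j a) (b α) (th M s j) (C0 * κ) R₀ α w ∧
      Ys H₀ (Ch n M s j a) (b α) (th M s j) (C0 * κ) R₀ α w ≤ 4 * R₀ * (1 + J * (2 * L + 1)) * ((blk n).card ^ J : ℝ) ^ 2 := by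
    intro j a
    have h2 := Ys_le H₀ (Ch n M s j a) (b α) (hb α) (θ := th M s j) hq0 hR₀
      (fun i t k hk => hlam i j k (Ch_sub hM a t hk)) w
    refine ⟨h2.1, h2.2.trans ?_⟩
    have h3 : ∏ t : Fin J, ((Ch n M s j a t).card : ℝ) ≤ ((blk n).card : ℝ) ^ J := by
      calc ∏ t : Fin J, ((Ch n M s j a t).card : ℝ) ≤ ∏ _t : Fin J, ((blk n).card : ℝ) := by
            refine Finset.prod_le_prod (fun t _ => by positivity) (fun t _ => ?_)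
            exact_mod_cast Finset.card_filter_le _ _
        _ = _ := by simp
    have h4 : (0 : ℝ) ≤ ∏ t : Fin J, ((Ch n M s j a t).card : ℝ) := Finset.prod_nonneg fun t _ => by positivity
    gcongr
  unfold Gk
  constructor
  · exact Finset.sum_nonneg fun j _ => Finset.sum_nonneg fun a _ => mul_nonneg hF0 (mul_nonneg (by positivity) (h1 j a).1)
  · have h2 : ∀ j ∈ Finset.range (8 * M ^ s), ∑ a ∈ gapT J M, FQ (2 ^ n) M s J * (Cs * κ *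
        Ys H₀ (Ch n M s j a) (b α) (th M s j) (C0 * κ) R₀ α w) ≤ (M : ℝ) ^ J * (FQ (2 ^ n) M s J * (Cs * κ *
        (4 * R₀ * (1 + J * (2 * L + 1)) * ((blk n).card ^ J : ℝ) ^ 2))) := by
      intro j _
      calc _ ≤ ∑ _a ∈ gapT J M, FQ (2 ^ n) M s J * (Cs * κ * (4 * R₀ * (1 + J * (2 * L + 1)) * ((blk n).card ^ J : ℝ) ^ 2)) := by
            refine Finset.sum_le_sum fun a _ => ?_
            have h3 := (h1 j a).2
            gcongr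
        _ = (gapT J M).card * (FQ (2 ^ n) M s J * (Cs * κ * (4 * R₀ * (1 + J * (2 * L + 1)) * ((blk n).card ^ J : ℝ) ^ 2))) := by
            rw [Finset.sum_const, nsmul_eq_mul]
        _ ≤ _ := mul_le_mul_of_nonneg_right (gapT_card' J M) (by positivity)
    refine (Finset.sum_le_sum h2).trans (le_of_eq ?_)
    rw [Finset.sum_const, nsmul_eq_mul, Finset.card_range]
    push_cast
    ring

open Classical in
/-- H7 with the count as hypotheses -/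
theorem Gk_mean_of {L : ℕ} {H₀ : ℝ → ℝ} (h0 : ContDiff ℝ 2 H₀) {n M s J Jm : ℕ} (hJm : J ≤ Jm) (hM : 1 ≤ M)
    {Cs C0 κ R₀ η N N' X : ℝ} (hCs : 0 ≤ Cs) (hC0 : 0 < C0) (hκ : 0 < κ) (hR₀ : 1 ≤ R₀) (hN0 : 0 ≤ N) (hN0' : 0 ≤ N') (b : ℝ → ℤ × ℤ → ℂ)
    (hb : ∀ α k, ‖b α k‖ ≤ 1) (hbc : ∀ k, Continuous (fun α => b α k)) {α : ℝ}
    (hlam : ∀ (i : Ix L) (j : ℕ), ∀ k ∈ arcSet (blk n) (8 * M ^ s) j, |lam (bas H₀ i) (th M s j) α k| ≤ C0 * κ)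
    (Bad : ℕ → Prop)
    (hys : ∀ (j : ℕ) (a : Fin J → Fin M) (N : ℝ), 0 ≤ N → (∀ k ∈ Fintype.piFinset (Ch n M s j a),
        (((Fintype.piFinset (Ch n M s j a)).filter (fun k' => ∀ l < 2 * J, ‖Mom k k' l‖ ≤ η)).card : ℝ) ≤ N) →
      ∫ w : (Fin L → ℝ) × (Fin L → ℝ), Ys H₀ (Ch n M s j a) (b α) (th M s j) (C0 * κ) R₀ α w ∂(gm L) ≤
      4 * R₀ * (1 + J * (2 * L + 1)) * (Dc (2 ^ n) M (s + 1) ^ J * N +
        Dc (2 ^ n) M (s + 1) ^ (2 * J) * exp (-(π / 16) * R₀ ^ 2 * η ^ 2)))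
    (h1 : ∀ j, ¬ Bad j → ∀ a ∈ gapT J M, ∀ k ∈ Fintype.piFinset (Ch n M s j a),
        (((Fintype.piFinset (Ch n M s j a)).filter (fun k' => ∀ l < 2 * J, ‖Mom k k' l‖ ≤ η)).card : ℝ) ≤ N)
    (h2 : ∀ j, ∀ a ∈ gapT J M, ∀ k ∈ Fintype.piFinset (Ch n M s j a),
        (((Fintype.piFinset (Ch n M s j a)).filter (fun k' => ∀ l < 2 * J, ‖Mom k k' l‖ ≤ η)).card : ℝ) ≤ N')
    (hX : (((Finset.range (8 * M ^ s)).filter Bad).card : ℝ) ≤ X) :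
    ∫ w : (Fin L → ℝ) × (Fin L → ℝ), Gk H₀ n M s J Cs C0 κ R₀ b α w ∂(gm L) ≤
      (M : ℝ) ^ J * (FQ (2 ^ n) M s J * (Cs * (4 * (1 + Jm * (2 * L + 1))) * κ * (R₀ *
        (8 * (M : ℝ) ^ s * (Dc (2 ^ n) M (s + 1) ^ J * N +
            Dc (2 ^ n) M (s + 1) ^ (2 * J) * exp (-(π / 16) * R₀ ^ 2 * η ^ 2)) +
          X * (Dc (2 ^ n) M (s + 1) ^ J * N' +
            Dc (2 ^ n) M (s + 1) ^ (2 * J) * exp (-(π / 16) * R₀ ^ 2 * η ^ 2)))))) := by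
  have hMp : (0 : ℝ) < M := by exact_mod_cast hM
  have hq0 : 0 < C0 * κ := by positivity
  have hF0 : 0 ≤ FQ (2 ^ n) M s J := FQ_nonneg' (by positivity) hMp.le _ _
  have hR0 : 0 < R₀ := by linarith
  have hD0 : 0 ≤ Dc (2 ^ n) M (s + 1) := by
    unfold Dc
    positivity
  have hint : ∀ (j : ℕ) (a : Fin J → Fin M), Integrable (fun w : (Fin L → ℝ) × (Fin L → ℝ) =>
      Ys H₀ (Ch n M s j a) (b α) (th M s j) (C0 * κ) R₀ α w) (gm L) := by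
    intro j a
    have hc := cont_fix (g := fun (α : ℝ) (w : (Fin L → ℝ) × (Fin L → ℝ)) => Ys H₀ (Ch n M s j a) (b α)
      (th M s j) (C0 * κ) R₀ α w) (Ys_cont h0 (Ch n M s j a) b hbc (th M s j) (C0 * κ) R₀) α
    refine Integrable.of_bound hc.aestronglyMeasurable (4 * R₀ * (1 + J * (2 * L + 1)) *
      (∏ t : Fin J, ((Ch n M s j a t).card : ℝ)) ^ 2) (ae_of_all _ fun w => ?_)
    have h3 := Ys_le H₀ (Ch n M s j a) (b α) (hb α) (θ := th M s j) hq0 hR0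
      (fun i t k hk => hlam i j k (Ch_sub hM a t hk)) w
    rw [Real.norm_eq_abs, abs_of_nonneg h3.1]
    exact h3.2
  obtain ⟨Z, hZ⟩ : ∃ Z : ℝ, Z = Dc (2 ^ n) M (s + 1) ^ J * N +
        Dc (2 ^ n) M (s + 1) ^ (2 * J) * exp (-(π / 16) * R₀ ^ 2 * η ^ 2) := ⟨_, rfl⟩
  obtain ⟨Z', hZ'⟩ : ∃ Z : ℝ, Z = Dc (2 ^ n) M (s + 1) ^ J * N' +
        Dc (2 ^ n) M (s + 1) ^ (2 * J) * exp (-(π / 16) * R₀ ^ 2 * η ^ 2) := ⟨_, rfl⟩
  have hZ0 : 0 ≤ Z := by rw [hZ]; positivity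
  have hZ0' : 0 ≤ Z' := by rw [hZ']; positivity
  rw [← hZ, ← hZ']
  have hJr : (J : ℝ) ≤ Jm := by exact_mod_cast hJm
  have hm : ∀ (j : ℕ), ∀ a ∈ gapT J M, ∫ w : (Fin L → ℝ) × (Fin L → ℝ), Ys H₀ (Ch n M s j a)
      (b α) (th M s j) (C0 * κ) R₀ α w ∂(gm L) ≤ 4 * R₀ * (1 + Jm * (2 * L + 1)) * (if Bad j then Z' else Z) := by
    intro j a ha
    by_cases hj : Bad j
    · rw [if_pos hj]
      refine (hys j a N' hN0' (h2 j a ha)).trans ?_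
      rw [← hZ']
      gcongr
    · rw [if_neg hj]
      refine (hys j a N hN0 (h1 j hj a ha)).trans ?_
      rw [← hZ]
      gcongr
  unfold Gk
  rw [integral_finsetSum _ fun j _ => integrable_finsetSum _ fun a _ => ((hint j a).const_mul _).const_mul _]
  have h5 : ∀ j ∈ Finset.range (8 * M ^ s), ∫ w : (Fin L → ℝ) × (Fin L → ℝ), (∑ a ∈ gapT J M, FQ (2 ^ n) M s J *
      (Cs * κ * Ys H₀ (Ch n M s j a) (b α) (th M s j) (C0 * κ) R₀ α w)) ∂(gm L) ≤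
      (M : ℝ) ^ J * (FQ (2 ^ n) M s J * (Cs * κ * (4 * R₀ * (1 + Jm * (2 * L + 1)) * (if Bad j then Z' else Z)))) := by
    intro j _
    rw [integral_finsetSum _ fun a _ => ((hint j a).const_mul _).const_mul _]
    have hz : 0 ≤ (if Bad j then Z' else Z) := by split_ifs <;> assumption
    calc _ = ∑ a ∈ gapT J M, FQ (2 ^ n) M s J * (Cs * κ *
          ∫ w : (Fin L → ℝ) × (Fin L → ℝ), Ys H₀ (Ch n M s j a) (b α) (th M s j) (C0 * κ) R₀ α w ∂(gm L)) := by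
          refine Finset.sum_congr rfl fun a _ => ?_
          rw [integral_const_mul, integral_const_mul]
      _ ≤ ∑ _a ∈ gapT J M, FQ (2 ^ n) M s J * (Cs * κ * (4 * R₀ * (1 + Jm * (2 * L + 1)) * (if Bad j then Z' else Z))) := by
          refine Finset.sum_le_sum fun a ha => ?_
          have h6 := hm j a ha
          gcongr
      _ = (gapT J M).card * (FQ (2 ^ n) M s J * (Cs * κ * (4 * R₀ * (1 + Jm * (2 * L + 1)) * (if Bad j then Z' else Z)))) := by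
          rw [Finset.sum_const, nsmul_eq_mul]
      _ ≤ _ := mul_le_mul_of_nonneg_right (gapT_card' J M) (by positivity)
  refine (Finset.sum_le_sum h5).trans ?_
  have h6 : ∑ j ∈ Finset.range (8 * M ^ s), (if Bad j then Z' else Z) ≤ 8 * (M : ℝ) ^ s * Z + X * Z' := by
    have h7 : ∀ j ∈ Finset.range (8 * M ^ s), (if Bad j then Z' else Z) ≤ Z + (if Bad j then Z' else 0) := by
      intro j _
      split_ifs
      · linarith
      · linarith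
    refine (Finset.sum_le_sum h7).trans ?_
    rw [Finset.sum_add_distrib, Finset.sum_const, nsmul_eq_mul, Finset.card_range, ← Finset.sum_filter, Finset.sum_const, nsmul_eq_mul]
    push_cast
    have := mul_le_mul_of_nonneg_right hX hZ0'
    linarith
  have h8 : ∑ j ∈ Finset.range (8 * M ^ s), (M : ℝ) ^ J * (FQ (2 ^ n) M s J * (Cs * κ * (4 * R₀ * (1 + Jm * (2 * L + 1)) *
      (if Bad j then Z' else Z)))) = (M : ℝ) ^ J * (FQ (2 ^ n) M s J * (Cs * (4 * (1 + Jm * (2 * L + 1))) * κ * (R₀ *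
      ∑ j ∈ Finset.range (8 * M ^ s), (if Bad j then Z' else Z)))) := by
    rw [Finset.mul_sum, Finset.mul_sum, Finset.mul_sum, Finset.mul_sum]
    refine Finset.sum_congr rfl fun j _ => ?_
    ring
  rw [h8]
  gcongr

theorem Gk_mean' {L : ℕ} {H₀ : ℝ → ℝ} (h0 : ContDiff ℝ 2 H₀) {n M s J Jm : ℕ} (hJ : 1 ≤ J) (hJm : J ≤ Jm) (hJL : 2 * J ≤ L) (hM : 1 ≤ M)
    {Cs C0 κ R₀ η lm : ℝ} (hCs : 0 ≤ Cs) (hC0 : 0 < C0) (hκ : 0 < κ) (hR₀ : 1 ≤ R₀) (hlm : 1 ≤ lm) (b : ℝ → ℤ × ℤ → ℂ)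
    (hb : ∀ α k, ‖b α k‖ ≤ 1) (hbc : ∀ k, Continuous (fun α => b α k)) {α : ℝ}
    (hlam : ∀ (i : Ix L) (j : ℕ), ∀ k ∈ arcSet (blk n) (8 * M ^ s) j, |lam (bas H₀ i) (th M s j) α k| ≤ C0 * κ)
    (hα : 1 / 2 ≤ |cos α|) (hη : 0 < η) :
    ∫ w : (Fin L → ℝ) × (Fin L → ℝ), Gk H₀ n M s J Cs C0 κ R₀ b α w ∂(gm L) ≤
      (M : ℝ) ^ J * (FQ (2 ^ n) M s J * (Cs * (4 * (1 + Jm * (2 * L + 1))) * κ * (R₀ *
        (8 * (M : ℝ) ^ s * (Dc (2 ^ n) M (s + 1) ^ J * Nc J M s η lm +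
            Dc (2 ^ n) M (s + 1) ^ (2 * J) * exp (-(π / 16) * R₀ ^ 2 * η ^ 2)) +
          5 * (4 * lm + 1) ^ 3 * (Dc (2 ^ n) M (s + 1) ^ J * Nc J M s η 1 +
            Dc (2 ^ n) M (s + 1) ^ (2 * J) * exp (-(π / 16) * R₀ ^ 2 * η ^ 2)))))) := by
  classical
  have h1 : 0 ≤ Nc J M s η lm := Nc_nonneg hη.le (by linarith)
  have h2 : 0 ≤ Nc J M s η 1 := Nc_nonneg hη.le zero_le_one
  have h3 : ∀ (j : ℕ) (a : Fin J → Fin M) (N : ℝ), 0 ≤ N → (∀ k ∈ Fintype.piFinset (Ch n M s j a),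
        (((Fintype.piFinset (Ch n M s j a)).filter (fun k' => ∀ l < 2 * J, ‖Mom k k' l‖ ≤ η)).card : ℝ) ≤ N) →
      ∫ w : (Fin L → ℝ) × (Fin L → ℝ), Ys H₀ (Ch n M s j a) (b α) (th M s j) (C0 * κ) R₀ α w ∂(gm L) ≤
      4 * R₀ * (1 + J * (2 * L + 1)) * (Dc (2 ^ n) M (s + 1) ^ J * N +
        Dc (2 ^ n) M (s + 1) ^ (2 * J) * exp (-(π / 16) * R₀ ^ 2 * η ^ 2)) := by
    intro j a N hN hc
    exact Ys_mean3 hJL hM h0 (b α) (hb α) (fun i k hk => hlam i j k hk) (by positivity) hR₀ hα hη hN hc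
  have h4 : ∀ j, ¬ ¬ Gen M s j (lm / 2) → ∀ a ∈ gapT J M, ∀ k ∈ Fintype.piFinset (Ch n M s j a),
        (((Fintype.piFinset (Ch n M s j a)).filter (fun k' => ∀ l < 2 * J, ‖Mom k k' l‖ ≤ η)).card : ℝ) ≤ Nc J M s η lm := by
    intro j hj a ha k hk
    exact cell_count hJ hM ha hη.le hlm (not_not.mp hj) k hk
  have h5 : ∀ j, ∀ a ∈ gapT J M, ∀ k ∈ Fintype.piFinset (Ch n M s j a),
        (((Fintype.piFinset (Ch n M s j a)).filter (fun k' => ∀ l < 2 * J, ‖Mom k k' l‖ ≤ η)).card : ℝ) ≤ Nc J M s η 1 := by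
    intro j a ha k hk
    exact cell_count hJ hM ha hη.le le_rfl (gen_half M s j hM) k hk
  have h6 : (((Finset.range (8 * M ^ s)).filter (fun j => ¬ Gen M s j (lm / 2))).card : ℝ) ≤ 5 * (4 * lm + 1) ^ 3 := special_card hM hlm
  exact Gk_mean_of (N := Nc J M s η lm) (N' := Nc J M s η 1) (X := 5 * (4 * lm + 1) ^ 3) h0 hJm hM hCs hC0 hκ hR₀ h1 h2 b hb hbc hlam
    (fun j => ¬ Gen M s j (lm / 2)) h3 h4 h5 (by convert h6)

end Pool.Agent.Helper60.AO
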